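import Pool.Agent.Q59.MC.Stm

/-!
# Job COMB of project MC
-/

set_option autoImplicit false

namespace Pool.Agent.Q53.MC

open Finset

/-- The product of the signs over `f`. -/
def z (ζ : ℕ → ℤˣ) (f : Finset ℕ) : ℤ := ∏ p ∈ f, ((ζ p : ℤˣ) : ℤ)

theorem z_units (ζ : ℕ → ℤˣ) (f : Finset ℕ) : z ζ f = ((∏ p ∈ f, ζ p : ℤˣ) : ℤ) := by
  rw [z, Units.coe_prod]

theorem z_or (ζ : ℕ → ℤˣ) (f : Finset ℕ) : z ζ f = 1 ∨ z ζ f = -1 := by
  rw [z_units]
  rcases Int.units_eq_one_or (∏ p ∈ f, ζ p : ℤˣ) with h | h <;> rw [h] <;> simp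

theorem z_mul (ζ ξ : ℕ → ℤˣ) (f : Finset ℕ) : z (fun p => ζ p * ξ p) f = z ζ f * z ξ f := by
  simp only [z, Units.val_mul, prod_mul_distrib]

theorem z_neg (ζ : ℕ → ℤˣ) (f : Finset ℕ) : z (fun p => - ζ p) f = (-1) ^ f.card * z ζ f := by
  simp only [z, Units.val_neg]
  rw [prod_neg]

theorem z_congr (ζ ξ : ℕ → ℤˣ) (f : Finset ℕ) (h : ∀ p ∈ f, ζ p = ξ p) : z ζ f = z ξ f := by
  unfold z
  exact prod_congr rfl fun p hp => by rw [h p hp]

theorem z_update_of_notMem (ζ : ℕ → ℤˣ) (f : Finset ℕ) (q : ℕ) (hq : q ∉ f) (u : ℤˣ) :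
    z (Function.update ζ q u) f = z ζ f :=
  z_congr _ _ _ fun p hp => Function.update_of_ne (fun h : p = q => hq (h ▸ hp)) _ _

theorem z_update_of_mem (ζ : ℕ → ℤˣ) (f : Finset ℕ) (q : ℕ) (hq : q ∈ f) :
    z (Function.update ζ q (- ζ q)) f = - z ζ f := by
  have h1 : z (Function.update ζ q (- ζ q)) (f.erase q) = z ζ (f.erase q) :=
    z_update_of_notMem _ _ _ (notMem_erase q f) _
  unfold z at h1 ⊢
  rw [← mul_prod_erase f _ hq, ← mul_prod_erase f (fun p => ((ζ p : ℤˣ) : ℤ)) hq, h1,
    Function.update_self, Units.val_neg, neg_mul]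

/-- The coefficient. -/
def kap (al be : ℕ → ℕ → ℤˣ) (f : Finset ℕ) (q : ℕ) : ℤ := (z (al q) f - z (be q) f) / 2

theorem two_kap (al be : ℕ → ℕ → ℤˣ) (f : Finset ℕ) (q : ℕ) :
    2 * kap al be f q = z (al q) f - z (be q) f := by
  unfold kap
  rcases z_or (al q) f with h | h <;> rcases z_or (be q) f with h' | h' <;> rw [h, h'] <;> norm_num

def cc (al be : ℕ → ℕ → ℤˣ) (S f : Finset ℕ) : ℤ := ∏ q ∈ S \ f, kap al be f q

theorem cc_self (al be : ℕ → ℕ → ℤˣ) (S : Finset ℕ) : cc al be S S = 1 := by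
  simp [cc]

theorem cc_erase (al be : ℕ → ℕ → ℤˣ) (S f : Finset ℕ) (q : ℕ) (hq : q ∈ S) (hf : q ∉ f) :
    cc al be S f = kap al be f q * cc al be (S.erase q) f := by
  unfold cc
  rw [← mul_prod_erase (S \ f) _ (mem_sdiff.2 ⟨hq, hf⟩)]
  congr 1
  apply prod_congr _ fun _ _ => rfl
  ext p
  simp only [mem_erase, mem_sdiff]
  tauto

/-- The proper subsets with an odd number of elements. -/
def os (S : Finset ℕ) : Finset (Finset ℕ) := S.ssubsets.filter fun f => Odd f.card

theorem mem_os (S f : Finset ℕ) : f ∈ os S ↔ f ⊂ S ∧ Odd f.card := by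
  simp [os]

noncomputable def U (W : Finset ℕ → (ℕ → ℤˣ) → ℤ) (al be : ℕ → ℕ → ℤˣ) : Finset ℕ → ℤ :=
  Finset.strongInduction fun S IH =>
    W S (fun _ => 1) - ∑ f ∈ (os S).attach, cc al be S f.1 * IH f.1 ((mem_os S f.1).1 f.2).1

theorem U_eq (W : Finset ℕ → (ℕ → ℤˣ) → ℤ) (al be : ℕ → ℕ → ℤˣ) (S : Finset ℕ) :
    U W al be S = W S (fun _ => 1) - ∑ f ∈ os S, cc al be S f * U W al be f := by
  rw [U, Finset.strongInduction_eq]
  congr 1
  exact sum_attach (os S) (fun f => cc al be S f *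
    (Finset.strongInduction (p := fun _ => ℤ) (fun S IH =>
    W S (fun _ => 1) - ∑ f ∈ (os S).attach, cc al be S f.1 * IH f.1 ((mem_os S f.1).1 f.2).1) f))

/-- The difference between `W S` and the sum over the proper subsets. -/
noncomputable def R (W : Finset ℕ → (ℕ → ℤˣ) → ℤ) (al be : ℕ → ℕ → ℤˣ) (S : Finset ℕ)
    (ζ : ℕ → ℤˣ) : ℤ :=
  W S ζ - ∑ f ∈ os S, cc al be S f * z ζ f * U W al be f

theorem R_one (W : Finset ℕ → (ℕ → ℤˣ) → ℤ) (al be : ℕ → ℕ → ℤˣ) (S : Finset ℕ) :
    R W al be S (fun _ => 1) = U W al be S := by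
  rw [R, U_eq]
  congr 1
  apply sum_congr rfl
  intro f _
  have : z (fun _ => 1) f = 1 := by simp [z]
  rw [this, mul_one]

theorem R_congr (W : Finset ℕ → (ℕ → ℤˣ) → ℤ) (al be : ℕ → ℕ → ℤˣ) (S : Finset ℕ)
    (h : ∀ ζ ζ' : ℕ → ℤˣ, (∀ p ∈ S, ζ p = ζ' p) → W S ζ = W S ζ') (ζ ζ' : ℕ → ℤˣ)
    (hz : ∀ p ∈ S, ζ p = ζ' p) : R W al be S ζ = R W al be S ζ' := by
  rw [R, R, h ζ ζ' hz]
  congr 1
  apply sum_congr rfl
  intro f hf
  rw [z_congr ζ ζ' f fun p hp => hz p (((mem_os S f).1 hf).1.1 hp)]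

/-- The odd subsets of `S` (all of them). -/
def ods (S : Finset ℕ) : Finset (Finset ℕ) := S.powerset.filter fun f => Odd f.card

theorem mem_ods (S f : Finset ℕ) : f ∈ ods S ↔ f ⊆ S ∧ Odd f.card := by
  simp [ods]

theorem ods_odd (S : Finset ℕ) (h : Odd S.card) : ods S = insert S (os S) := by
  ext f
  rw [mem_insert, mem_os, mem_ods]
  constructor
  · rintro ⟨h1, h2⟩
    rcases eq_or_ssubset_of_subset h1 with h3 | h3
    · exact Or.inl h3
    · exact Or.inr ⟨h3, h2⟩
  · rintro (h1 | ⟨h1, h2⟩)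
    · subst h1
      exact ⟨Subset.refl _, h⟩
    · exact ⟨h1.1, h2⟩

theorem ods_even (S : Finset ℕ) (h : Even S.card) : ods S = os S := by
  ext f
  rw [mem_os, mem_ods]
  constructor
  · rintro ⟨h1, h2⟩
    rcases eq_or_ssubset_of_subset h1 with h3 | h3
    · subst h3
      exact absurd h (Nat.not_even_iff_odd.2 h2)
    · exact ⟨h3, h2⟩
  · rintro ⟨h1, h2⟩
    exact ⟨h1.1, h2⟩

theorem notMem_os (S : Finset ℕ) : S ∉ os S := by
  rw [mem_os]
  exact fun h => (ssubset_irrefl S) h.1

theorem key (P : Finset ℕ) (W : Finset ℕ → (ℕ → ℤˣ) → ℤ) (al be : ℕ → ℕ → ℤˣ)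
    (hloc : ∀ S ⊆ P, ∀ ζ ζ' : ℕ → ℤˣ, (∀ p ∈ S, ζ p = ζ' p) → W S ζ = W S ζ')
    (hodd : ∀ S ⊆ P, ∀ ζ : ℕ → ℤˣ, W S (fun p => - ζ p) = - W S ζ)
    (hflip : ∀ S ⊆ P, ∀ q ∈ S, ∀ ζ : ℕ → ℤˣ, W S ζ + W S (Function.update ζ q (- ζ q)) =
      W (S.erase q) (fun p => al q p * ζ p) - W (S.erase q) (fun p => be q p * ζ p)) :
    ∀ S : Finset ℕ, S ⊆ P → ∀ ζ : ℕ → ℤˣ,
      W S ζ = ∑ f ∈ ods S, cc al be S f * z ζ f * U W al be f := by
  intro S
  induction S using Finset.strongInduction with
  | H S IH =>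
  intro hS
  -- flipping
  have hR : ∀ q ∈ S, ∀ ζ : ℕ → ℤˣ,
      R W al be S ζ + R W al be S (Function.update ζ q (- ζ q)) = 0 := by
    intro q hq ζ
    have h1 := hflip S hS q hq ζ
    have hE : S.erase q ⊂ S := erase_ssubset hq
    rw [IH _ hE (hE.1.trans hS), IH _ hE (hE.1.trans hS), ← sum_sub_distrib] at h1
    have h2 : ∑ f ∈ os S, cc al be S f * z ζ f * U W al be f +
        ∑ f ∈ os S, cc al be S f * z (Function.update ζ q (- ζ q)) f * U W al be f =
        ∑ f ∈ ods (S.erase q), 2 * (cc al be S f * z ζ f * U W al be f) := by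
      rw [← sum_add_distrib]
      have hsub : ods (S.erase q) ⊆ os S := by
        intro f hf
        rw [mem_ods] at hf
        rw [mem_os]
        exact ⟨lt_of_le_of_lt hf.1 hE, hf.2⟩
      rw [← sum_subset hsub]
      · apply sum_congr rfl
        intro f hf
        rw [mem_ods] at hf
        rw [z_update_of_notMem _ _ _ (fun h => (notMem_erase q S) (hf.1 h))]
        ring
      · intro f hf hf'
        rw [mem_os] at hf
        have hqf : q ∈ f := by
          by_contra hqf
          apply hf'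
          rw [mem_ods]
          exact ⟨fun p hp => mem_erase.2 ⟨fun h => hqf (h ▸ hp), hf.1.1 hp⟩, hf.2⟩
        rw [z_update_of_mem _ _ _ hqf]
        ring
    have h3 : ∑ f ∈ ods (S.erase q), (cc al be (S.erase q) f * z (fun p => al q p * ζ p) f *
          U W al be f - cc al be (S.erase q) f * z (fun p => be q p * ζ p) f * U W al be f) =
        ∑ f ∈ ods (S.erase q), 2 * (cc al be S f * z ζ f * U W al be f) := by
      apply sum_congr rfl
      intro f hf
      rw [mem_ods] at hf
      rw [cc_erase al be S f q hq (fun h => (notMem_erase q S) (hf.1 h)), z_mul, z_mul]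
      have := two_kap al be f q
      linear_combination (-1 : ℤ) * cc al be (S.erase q) f * z ζ f * U W al be f * this
    unfold R
    linarith
  -- the value of `R`
  have hRz : ∀ ζ : ℕ → ℤˣ, R W al be S ζ = z ζ S * U W al be S := by
    intro ζ
    have hind : ∀ T : Finset ℕ, T ⊆ S →
        R W al be S (fun p => if p ∈ T then ζ p else 1) = z ζ T * U W al be S := by
      intro T
      induction T using Finset.induction_on with
      | empty =>
        intro _
        have : (fun p => if p ∈ (∅ : Finset ℕ) then ζ p else 1) = (fun _ => (1 : ℤˣ)) := by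
          funext p
          simp
        rw [this, R_one]
        simp [z]
      | insert a T ha ih =>
        intro hT
        have haS : a ∈ S := hT (mem_insert_self a T)
        have hTS : T ⊆ S := (subset_insert a T).trans hT
        have h1 := ih hTS
        have hz1 : z ζ (insert a T) = (ζ a : ℤ) * z ζ T := by
          unfold z
          rw [prod_insert ha]
        rcases Int.units_eq_one_or (ζ a) with h | h
        · have : (fun p => if p ∈ insert a T then ζ p else 1) =
              (fun p => if p ∈ T then ζ p else 1) := by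
            funext p
            by_cases hp : p = a
            · subst hp
              simp [ha, h]
            · simp [mem_insert, hp]
          rw [this, h1, hz1, h]
          simp
        · have : (fun p => if p ∈ insert a T then ζ p else 1) =
              Function.update (fun p => if p ∈ T then ζ p else 1) a
                (- (fun p => if p ∈ T then ζ p else 1) a) := by
            funext p
            by_cases hp : p = a
            · subst hp
              simp [ha, h]
            · simp [mem_insert, hp]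
          have h2 := hR a haS (fun p => if p ∈ T then ζ p else 1)
          rw [this, hz1, h]
          have : R W al be S (Function.update (fun p => if p ∈ T then ζ p else 1) a
                (- (fun p => if p ∈ T then ζ p else 1) a)) =
                - R W al be S (fun p => if p ∈ T then ζ p else 1) := by linarith
          rw [this, h1]
          simp
    have h1 := hind S (Subset.refl S)
    rw [← h1]
    apply R_congr W al be S (hloc S hS)
    intro p hp
    simp [hp]
  intro ζ
  rcases Nat.even_or_odd S.card with he | ho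
  · -- even
    have h1 : R W al be S (fun p => - ζ p) = - R W al be S ζ := by
      unfold R
      rw [hodd S hS ζ, neg_sub, sub_eq_add_neg, neg_add_eq_sub, sub_left_inj]
      rw [neg_eq_iff_eq_neg, ← sum_neg_distrib]
      apply sum_congr rfl
      intro f hf
      rw [z_neg, ((mem_os S f).1 hf).2.neg_one_pow]
      ring
    have h2 : R W al be S (fun p => - ζ p) = R W al be S ζ := by
      rw [hRz, hRz, z_neg, he.neg_one_pow, one_mul]
    have h3 : R W al be S ζ = 0 := by linarith
    rw [ods_even S he]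
    unfold R at h3
    linarith
  · rw [ods_odd S ho, sum_insert (notMem_os S), cc_self, one_mul]
    have := hRz ζ
    unfold R at this
    linarith

theorem comb : Pool.Agent.Q59.MC.S_Comb := by
  intro P W al be hloc hodd hflip S hS hev
  have K := key P W al be hloc hodd hflip
  -- the functions `ζ ↦ ζ ^ f * U f`
  have h2 : ∀ f : Finset ℕ, f ⊆ P → Odd f.card → (fun ζ : ℕ → ℤˣ => z ζ f * U W al be f) ∈
      AddSubgroup.closure {h : (ℕ → ℤˣ) → ℤ | ∃ g ⊆ f, Odd g.card ∧ h = W g} := by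
    intro f
    induction f using Finset.strongInduction with
    | H f IH =>
    intro hf ho
    have h1 : (fun ζ : ℕ → ℤˣ => z ζ f * U W al be f) =
        W f - ∑ g ∈ os f, cc al be f g • (fun ζ : ℕ → ℤˣ => z ζ g * U W al be g) := by
      funext ζ
      have := K f hf ζ
      rw [ods_odd f ho, sum_insert (notMem_os f), cc_self, one_mul] at this
      rw [Pi.sub_apply, Finset.sum_apply, this]
      simp only [Pi.smul_apply, smul_eq_mul, mul_assoc]
      ring
    rw [h1]
    apply AddSubgroup.sub_mem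
    · exact AddSubgroup.subset_closure ⟨f, Subset.refl f, ho, rfl⟩
    · apply AddSubgroup.sum_mem
      intro g hg
      apply AddSubgroup.zsmul_mem
      have hg' := (mem_os f g).1 hg
      apply (AddSubgroup.closure_mono (k := {h : (ℕ → ℤˣ) → ℤ | ∃ g ⊆ f, Odd g.card ∧ h = W g}) _)
        (IH g hg'.1 (hg'.1.1.trans hf) hg'.2)
      rintro h ⟨k, hk, hko, rfl⟩
      exact ⟨k, hk.trans hg'.1.1, hko, rfl⟩
  have h3 : W S = ∑ f ∈ ods S, cc al be S f • (fun ζ : ℕ → ℤˣ => z ζ f * U W al be f) := by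
    funext ζ
    rw [K S hS ζ, Finset.sum_apply]
    simp only [Pi.smul_apply, smul_eq_mul, mul_assoc]
  rw [h3]
  apply AddSubgroup.sum_mem
  intro f hf
  apply AddSubgroup.zsmul_mem
  have hf' := (mem_ods S f).1 hf
  apply (AddSubgroup.closure_mono (k := {h : (ℕ → ℤˣ) → ℤ | ∃ f ⊆ S, Odd f.card ∧ h = W f}) _)
    (h2 f (hf'.1.trans hS) hf'.2)
  rintro h ⟨k, hk, hko, rfl⟩
  exact ⟨k, hk.trans hf'.1, hko, rfl⟩

end Pool.Agent.Q53.MC
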